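import Pool.Agent.helper17.MLG.Spec

/-! # Row mlg:ISO (MP_84f457_gt) -/

set_option autoImplicit false

namespace Pool.Agent.MLG

open MeasureTheory Set Filter Topology Module
open scoped ENNReal ContDiff

theorem ISO_bl {V : Type} [NormedAddCommGroup V] [InnerProductSpace ℝ V] [Group V] (r : ℝ) :
    bl (1 : V) r = Metric.ball (1 : V) r := by
  unfold bl
  simp

theorem ISO (hAVE : AVE_stmt) (hVBL : VBL_stmt) : ISO_stmt := by
  intro V _ _ _ _ _ _ hV
  obtain ⟨C, r₀, hC, hr₀, hA⟩ := hAVE V hV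
  obtain ⟨κ₁, κ₂, r₁, hκ₁, hκ₂, hr₁, hB⟩ := hVBL V hV
  refine ⟨κ₁ / 2, 2 * C * κ₂ / κ₁, min r₀ r₁, by positivity, by positivity, lt_min hr₀ hr₁, ?_⟩
  intro A hAm r hr hrr hvol
  have hrn : 0 < r ^ finrank ℝ V := pow_pos hr _
  have h1 := hA A hAm r hr (hrr.trans (min_le_left _ _))
  have hb : vol V (Metric.ball (1 : V) r) ≤ ENNReal.ofReal (κ₂ * r ^ finrank ℝ V) := by
    have := (hB 1 r hr (hrr.trans (min_le_right _ _))).2
    rwa [ISO_bl] at this
  have hlow : ∀ x : V, ENNReal.ofReal (κ₁ / 2 * r ^ finrank ℝ V) ≤ vol V (bl x r \ A) := by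
    intro x
    have h2 := (hB x r hr (hrr.trans (min_le_right _ _))).1
    have h3 : vol V (bl x r) - vol V A ≤ vol V (bl x r \ A) := le_measure_sdiff
    refine le_trans ?_ h3
    refine le_trans ?_ (tsub_le_tsub h2 hvol)
    rw [← ENNReal.ofReal_sub _ (by positivity)]
    apply ENNReal.ofReal_le_ofReal
    apply le_of_eq
    ring
  have h4 : ENNReal.ofReal (κ₁ / 2 * r ^ finrank ℝ V) * vol V A ≤
      ∫⁻ x in A, vol V (bl x r \ A) ∂(vol V) := by
    rw [← setLIntegral_const]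
    exact lintegral_mono fun x => hlow x
  have h5 : ENNReal.ofReal (κ₁ / 2 * r ^ finrank ℝ V) * vol V A ≤
      ENNReal.ofReal (C * r) * ENNReal.ofReal (κ₂ * r ^ finrank ℝ V) * per A := by
    refine h4.trans (h1.trans ?_)
    gcongr
  have hK0 : ENNReal.ofReal (κ₁ / 2 * r ^ finrank ℝ V) ≠ 0 := by
    have : 0 < κ₁ / 2 * r ^ finrank ℝ V := by positivity
    exact (ENNReal.ofReal_pos.2 this).ne'
  have hKt : ENNReal.ofReal (κ₁ / 2 * r ^ finrank ℝ V) ≠ ⊤ := ENNReal.ofReal_ne_top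
  have h6 : ENNReal.ofReal (κ₁ / 2 * r ^ finrank ℝ V) * (ENNReal.ofReal (2 * C * κ₂ / κ₁ * r) * per A) =
      ENNReal.ofReal (C * r) * ENNReal.ofReal (κ₂ * r ^ finrank ℝ V) * per A := by
    rw [← mul_assoc, ← ENNReal.ofReal_mul (by positivity), ← ENNReal.ofReal_mul (by positivity)]
    have e : κ₁ / 2 * r ^ finrank ℝ V * (2 * C * κ₂ / κ₁ * r) = C * r * (κ₂ * r ^ finrank ℝ V) := by
      field_simp
    rw [e]
  rw [← h6] at h5
  exact (ENNReal.mul_le_mul_iff_right hK0 hKt).1 h5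

end Pool.Agent.MLG
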